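import Pool.Agent.Y493.Br.Stm

set_option autoImplicit false

/-!
Assembly of the local Chern conjecture in the four sphere from the principal frame, the
structure equations and the algebraic main theorem (job BR-G4).
-/

namespace Y463.BR

open Y493.Br
open scoped BigOperators Topology

abbrev om : WithTop ℕ∞ := ((⊤ : ℕ∞) : WithTop ℕ∞)

lemma smdet {M : E3 → Matrix (Fin 3) (Fin 3) ℝ} {U : Set E3}
    (h : ∀ i j, ContDiffOn ℝ om (fun x => M x i j) U) :
    ContDiffOn ℝ om (fun x => (M x).det) U := by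
  simp only [Matrix.det_apply']
  refine ContDiffOn.sum fun σ _ => ?_
  refine contDiffOn_const.mul ?_
  exact contDiffOn_prod fun i _ => h _ _

lemma smadj {M : E3 → Matrix (Fin 3) (Fin 3) ℝ} {U : Set E3}
    (h : ∀ i j, ContDiffOn ℝ om (fun x => M x i j) U) (i j : Fin 3) :
    ContDiffOn ℝ om (fun x => (M x).adjugate i j) U := by
  simp only [Matrix.adjugate_apply]
  refine smdet fun a b => ?_
  simp only [Matrix.updateRow_apply]
  by_cases hab : a = j
  · simp only [hab, if_true]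
    exact contDiffOn_const
  · simp only [hab, if_false]
    exact h a b

lemma sminv {M : E3 → Matrix (Fin 3) (Fin 3) ℝ} {U : Set E3}
    (h : ∀ i j, ContDiffOn ℝ om (fun x => M x i j) U) (hdet : ∀ x ∈ U, (M x).det ≠ 0)
    (i j : Fin 3) : ContDiffOn ℝ om (fun x => (M x)⁻¹ i j) U := by
  have h1 : ContDiffOn ℝ om (fun x => ((M x).det)⁻¹ * (M x).adjugate i j) U :=
    ((smdet h).inv hdet).mul (smadj h i j)
  refine h1.congr fun x hx => ?_
  rw [Matrix.inv_def, Ring.inverse_eq_inv']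
  rfl

lemma smmul {M N : E3 → Matrix (Fin 3) (Fin 3) ℝ} {U : Set E3}
    (hM : ∀ i j, ContDiffOn ℝ om (fun x => M x i j) U)
    (hN : ∀ i j, ContDiffOn ℝ om (fun x => N x i j) U) (i j : Fin 3) :
    ContDiffOn ℝ om (fun x => (M x * N x) i j) U := by
  simp only [Matrix.mul_apply]
  exact ContDiffOn.sum fun k _ => (hM i k).mul (hN k j)

lemma smtr {M : E3 → Matrix (Fin 3) (Fin 3) ℝ} {U : Set E3}
    (hM : ∀ i j, ContDiffOn ℝ om (fun x => M x i j) U) :
    ContDiffOn ℝ om (fun x => Matrix.trace (M x)) U := by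
  simp only [Matrix.trace, Matrix.diag]
  exact ContDiffOn.sum fun k _ => hM k k

lemma single_sum (v : E3) :
    ∑ i, v i • (EuclideanSpace.single i (1 : ℝ) : E3) = v := by
  ext j
  simp [Fin.sum_univ_three]
  fin_cases j <;> simp

lemma gram_det {L : E3 →L[ℝ] E5} (hL : Function.Injective L) :
    (Matrix.of (fun (i : Fin 3) (j : Fin 3) =>
        inner ℝ (L (EuclideanSpace.single i (1 : ℝ)))
          (L (EuclideanSpace.single j (1 : ℝ))))).det ≠ 0 := by
  intro h0
  obtain ⟨v, hv, hv0⟩ := Matrix.exists_mulVec_eq_zero_iff.mpr h0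
  let w : E3 := WithLp.toLp 2 v
  have hw : ∀ i, w i = v i := fun i => rfl
  have h1 : inner ℝ (L w) (L w) = (0 : ℝ) := by
    have e : L w = ∑ i, v i • L (EuclideanSpace.single i (1 : ℝ)) := by
      conv_lhs => rw [← single_sum w]
      rw [map_sum]
      exact Finset.sum_congr rfl fun i _ => by rw [map_smul, hw]
    have e2 : ∀ i, ∑ j, inner ℝ (L (EuclideanSpace.single i (1 : ℝ)))
          (L (EuclideanSpace.single j (1 : ℝ))) * v j = 0 := by
      intro i
      have := congrFun hv0 i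
      simpa [Matrix.mulVec, dotProduct] using this
    rw [e, sum_inner]
    refine Finset.sum_eq_zero fun i _ => ?_
    rw [inner_smul_left, inner_sum]
    have : ∑ j, inner ℝ (L (EuclideanSpace.single i (1 : ℝ)))
          (v j • L (EuclideanSpace.single j (1 : ℝ))) = 0 := by
      rw [← e2 i]
      refine Finset.sum_congr rfl fun j _ => ?_
      rw [inner_smul_right]
      ring
    rw [this, mul_zero]
  have h2 : L w = 0 := inner_self_eq_zero.mp h1
  have h3 : w = 0 := hL (by rw [h2, map_zero])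
  apply hv
  funext i
  have := congrArg (fun u : E3 => u i) h3
  simpa [hw] using this

lemma smS {U : Set E3} {f ν : E3 → E5} {S : E3 → Matrix (Fin 3) (Fin 3) ℝ} {c : ℝ}
    (H : Hyp U f ν S c) (i j : Fin 3) : ContDiffOn ℝ om (fun x => S x i j) U := by
  have hf' : ContDiffOn ℝ om (fderiv ℝ f) U := H.smf.fderiv_of_isOpen H.isOpen (by simp)
  have hν' : ContDiffOn ℝ om (fderiv ℝ ν) U := H.smν.fderiv_of_isOpen H.isOpen (by simp)
  have hfi : ∀ i : Fin 3, ContDiffOn ℝ om
      (fun x => fderiv ℝ f x (EuclideanSpace.single i (1 : ℝ))) U :=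
    fun i => hf'.clm_apply contDiffOn_const
  have hνi : ∀ i : Fin 3, ContDiffOn ℝ om
      (fun x => fderiv ℝ ν x (EuclideanSpace.single i (1 : ℝ))) U :=
    fun i => hν'.clm_apply contDiffOn_const
  have hg : ∀ a b : Fin 3, ContDiffOn ℝ om
      (fun x => (Matrix.of (fun (i : Fin 3) (j : Fin 3) =>
        inner ℝ (fderiv ℝ f x (EuclideanSpace.single i (1 : ℝ)))
          (fderiv ℝ f x (EuclideanSpace.single j (1 : ℝ))))) a b) U :=
    fun a b => (hfi a).inner ℝ (hfi b)
  have hh : ∀ a b : Fin 3, ContDiffOn ℝ om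
      (fun x => (Matrix.of (fun (i : Fin 3) (j : Fin 3) =>
        -inner ℝ (fderiv ℝ f x (EuclideanSpace.single i (1 : ℝ)))
          (fderiv ℝ ν x (EuclideanSpace.single j (1 : ℝ))))) a b) U :=
    fun a b => ((hfi a).inner ℝ (hνi b)).neg
  refine (smmul (sminv hg fun x hx => gram_det (H.inj x hx)) hh i j).congr fun x hx => ?_
  rw [H.shape x hx]

lemma smT {U : Set E3} {f ν : E3 → E5} {S : E3 → Matrix (Fin 3) (Fin 3) ℝ} {c : ℝ}
    (H : Hyp U f ν S c) :
    ContDiffOn ℝ om (fun x => Matrix.trace (S x * S x * S x)) U :=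
  smtr (smmul (smmul (smS H) (smS H)) (smS H))

/-- a functional vanishing on the frame vanishes -/
lemma frame_span {V : Set E3} {f ν : E3 → E5} {c : ℝ} {E : Fin 3 → E3 → E3}
    {lam : Fin 3 → E3 → ℝ} (P : PFrame V f ν c E lam) {x : E3} (hx : x ∈ V)
    {L : E3 →L[ℝ] ℝ} (h : ∀ k, L (E k x) = 0) : L = 0 := by
  have h1 : Orthonormal ℝ (fun k => fderiv ℝ f x (E k x)) := by
    rw [orthonormal_iff_ite]
    exact fun i j => P.orth x hx i j
  have h2 : LinearIndependent ℝ (fun k => E k x) :=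
    LinearIndependent.of_comp (fderiv ℝ f x).toLinearMap h1.linearIndependent
  let b := basisOfLinearIndependentOfCardEqFinrank h2 (by simp)
  have hb : ∀ k, b k = E k x := fun k => by
    simp [b]
  have h3 : (L : E3 →ₗ[ℝ] ℝ) = 0 := b.ext fun k => by
    rw [hb k]
    simpa using h k
  ext v
  exact congrArg (fun l : E3 →ₗ[ℝ] ℝ => l v) h3

/-- the derivatives of the three curvatures vanish together -/
lemma all_vanish {V : Set E3} {f ν : E3 → E5} {c : ℝ} {E : Fin 3 → E3 → E3}
    {lam : Fin 3 → E3 → ℝ} (P : PFrame V f ν c E lam) {x : E3} (hx : x ∈ V)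
    (h : fderiv ℝ (lam 1) x = 0) (i : Fin 3) : fderiv ℝ (lam i) x = 0 := by
  have hd : ∀ i, HasFDerivAt (lam i) (fderiv ℝ (lam i) x) x := fun i =>
    (((P.smlam i).contDiffAt (P.isOpen.mem_nhds hx)).differentiableAt
      (by simp)).hasFDerivAt
  have s1 : fderiv ℝ (lam 0) x + fderiv ℝ (lam 1) x + fderiv ℝ (lam 2) x = 0 := by
    have a1 : HasFDerivAt (fun y => lam 0 y + lam 1 y + lam 2 y)
        (fderiv ℝ (lam 0) x + fderiv ℝ (lam 1) x + fderiv ℝ (lam 2) x) x :=
      ((hd 0).add (hd 1)).add (hd 2)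
    have a2 : HasFDerivAt (fun y => lam 0 y + lam 1 y + lam 2 y) (0 : E3 →L[ℝ] ℝ) x := by
      refine (hasFDerivAt_const (0 : ℝ) x).congr_of_eventuallyEq ?_
      filter_upwards [P.isOpen.mem_nhds hx] with y hy
      exact P.sum0 y hy
    exact a1.unique a2
  have s2 : (2 * lam 0 x) • fderiv ℝ (lam 0) x + (2 * lam 1 x) • fderiv ℝ (lam 1) x
      + (2 * lam 2 x) • fderiv ℝ (lam 2) x = 0 := by
    have a1 : HasFDerivAt (fun y => lam 0 y ^ 2 + lam 1 y ^ 2 + lam 2 y ^ 2)
        ((2 * lam 0 x) • fderiv ℝ (lam 0) x + (2 * lam 1 x) • fderiv ℝ (lam 1) x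
          + (2 * lam 2 x) • fderiv ℝ (lam 2) x) x := by
      have := (((hd 0).pow 2).add ((hd 1).pow 2)).add ((hd 2).pow 2)
      refine this.congr_fderiv ?_
      ext v
      simp
    have a2 : HasFDerivAt (fun y => lam 0 y ^ 2 + lam 1 y ^ 2 + lam 2 y ^ 2)
        (0 : E3 →L[ℝ] ℝ) x := by
      refine (hasFDerivAt_const c x).congr_of_eventuallyEq ?_
      filter_upwards [P.isOpen.mem_nhds hx] with y hy
      exact P.sumsq y hy
    exact a1.unique a2
  have hlt : lam 2 x < lam 0 x := (P.lt21 x hx).trans (P.lt10 x hx)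
  have key : ∀ v, fderiv ℝ (lam 0) x v = 0 ∧ fderiv ℝ (lam 2) x v = 0 := by
    intro v
    have b1 := congrArg (fun l : E3 →L[ℝ] ℝ => l v) s1
    have b2 := congrArg (fun l : E3 →L[ℝ] ℝ => l v) s2
    rw [h] at b1 b2
    simp only [add_zero, smul_zero, ContinuousLinearMap.add_apply,
      ContinuousLinearMap.smul_apply, ContinuousLinearMap.zero_apply, smul_eq_mul] at b1 b2
    have b3 : (lam 0 x - lam 2 x) * fderiv ℝ (lam 0) x v = 0 := by
      linear_combination (1 / 2) * b2 - lam 2 x * b1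
    have b4 : fderiv ℝ (lam 0) x v = 0 := by
      rcases mul_eq_zero.mp b3 with h' | h'
      · exact absurd h' (by linarith)
      · exact h'
    exact ⟨b4, by linarith⟩
  fin_cases i
  · ext v; exact (key v).1
  · exact h
  · ext v; exact (key v).2

/-- the derivative of the sum of cubes vanishes with the derivative of the middle curvature -/
lemma cubes_vanish {V : Set E3} {f ν : E3 → E5} {c : ℝ} {E : Fin 3 → E3 → E3}
    {lam : Fin 3 → E3 → ℝ} (P : PFrame V f ν c E lam) {x : E3} (hx : x ∈ V)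
    (h : fderiv ℝ (lam 1) x = 0) {T : E3 → ℝ}
    (hT : ∀ y ∈ V, T y = lam 0 y ^ 3 + lam 1 y ^ 3 + lam 2 y ^ 3) :
    fderiv ℝ T x = 0 := by
  have hd : ∀ i, HasFDerivAt (lam i) (0 : E3 →L[ℝ] ℝ) x := fun i => by
    rw [← all_vanish P hx h i]
    exact (((P.smlam i).contDiffAt (P.isOpen.mem_nhds hx)).differentiableAt
      (by simp)).hasFDerivAt
  have a1 : HasFDerivAt (fun y => lam 0 y ^ 3 + lam 1 y ^ 3 + lam 2 y ^ 3)
      (0 : E3 →L[ℝ] ℝ) x := by
    have := (((hd 0).pow 3).add ((hd 1).pow 3)).add ((hd 2).pow 3)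
    refine this.congr_fderiv ?_
    ext v
    simp
  have a2 : HasFDerivAt T (0 : E3 →L[ℝ] ℝ) x := by
    refine a1.congr_of_eventuallyEq ?_
    filter_upwards [P.isOpen.mem_nhds hx] with y hy
    exact hT y hy
  exact a2.fderiv

/-- the frame of the opposite orientation -/
lemma flip {V : Set E3} {f ν : E3 → E5} {c : ℝ} {E : Fin 3 → E3 → E3}
    {lam : Fin 3 → E3 → ℝ} (P : PFrame V f ν c E lam) :
    PFrame V f (fun x => -ν x) c (fun i => E i.rev) (fun i x => -lam i.rev x) where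
  isOpen := P.isOpen
  smf := P.smf
  smν := P.smν.neg
  smE := fun i => P.smE i.rev
  smlam := fun i => (P.smlam i.rev).neg
  inj := P.inj
  normf := P.normf
  normν := fun x hx => by simpa using P.normν x hx
  perp := fun x hx => by simpa using P.perp x hx
  tang := fun x hx v => by simpa using P.tang x hx v
  orth := fun x hx i j => by
    rw [P.orth x hx i.rev j.rev]
    by_cases h : i = j
    · simp [h]
    · have : i.rev ≠ j.rev := fun h' => h (Fin.rev_injective h')
      simp [h, this]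
  wein := fun x hx i => by
    have h1 : fderiv ℝ (fun x => -ν x) x = -fderiv ℝ ν x := fderiv_neg
    rw [h1, ContinuousLinearMap.neg_apply, P.wein x hx i.rev]
    simp
  lt21 := fun x hx => by
    have e2 : (2 : Fin 3).rev = 0 := rfl
    have e1 : (1 : Fin 3).rev = 1 := rfl
    simp only [e2, e1]
    linarith [P.lt10 x hx]
  lt10 := fun x hx => by
    have e0 : (0 : Fin 3).rev = 2 := rfl
    have e1 : (1 : Fin 3).rev = 1 := rfl
    simp only [e0, e1]
    linarith [P.lt21 x hx]
  sum0 := fun x hx => by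
    have e0 : (0 : Fin 3).rev = 2 := rfl
    have e1 : (1 : Fin 3).rev = 1 := rfl
    have e2 : (2 : Fin 3).rev = 0 := rfl
    simp only [e0, e1, e2]
    linarith [P.sum0 x hx]
  sumsq := fun x hx => by
    have e0 : (0 : Fin 3).rev = 2 := rfl
    have e1 : (1 : Fin 3).rev = 1 := rfl
    have e2 : (2 : Fin 3).rev = 0 := rfl
    simp only [e0, e1, e2]
    linear_combination P.sumsq x hx

lemma vanish_pos (h2 : StG2) (h3 : StG3) (hA : StA)
    {V : Set E3} {f ν : E3 → E5} {c : ℝ} {E : Fin 3 → E3 → E3}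
    {lam : Fin 3 → E3 → ℝ} (P : PFrame V f ν c E lam) {x : E3} (hx : x ∈ V)
    (hpos : 0 < lam 1 x) : fderiv ℝ (lam 1) x = 0 := by
  have h := h3 hA V c E lam (Gam f E) P.isOpen P.smE P.smlam P.lt21 P.lt10 P.sum0 P.sumsq
    (h2 V f ν c E lam P) x hx hpos
  exact frame_span P hx h

lemma vanish_neg (h2 : StG2) (h3 : StG3) (hA : StA)
    {V : Set E3} {f ν : E3 → E5} {c : ℝ} {E : Fin 3 → E3 → E3}
    {lam : Fin 3 → E3 → ℝ} (P : PFrame V f ν c E lam) {x : E3} (hx : x ∈ V)
    (hneg : lam 1 x < 0) : fderiv ℝ (lam 1) x = 0 := by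
  have h := vanish_pos h2 h3 hA (flip P) hx (by
    have e1 : (1 : Fin 3).rev = 1 := rfl
    simp only [e1]
    linarith)
  have e1 : (1 : Fin 3).rev = 1 := rfl
  simp only [e1] at h
  have h' : fderiv ℝ (fun x => -lam 1 x) x = -fderiv ℝ (lam 1) x := fderiv_neg
  rw [h'] at h
  exact neg_eq_zero.mp h

/-- JOB BR-G4. -/
theorem g4 : StG4 := by
  intro h1 h2 h3 hA U f ν S hU hconn hf hν hinj hnf hnν hS htr1 hc
  obtain ⟨c, hc⟩ := hc
  have H : Hyp U f ν S c := ⟨hU, hconn, hf, hν, hinj, hnf, hnν, hS, htr1, hc⟩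
  refine hU.exists_is_const_of_fderiv_eq_zero hconn.isPreconnected
    ((smT H).differentiableOn (by simp)) ?_
  intro x0 hx0
  by_contra hne
  have hne' : fderiv ℝ (fun x => Matrix.trace (S x * S x * S x)) x0 ≠ 0 := hne
  obtain ⟨V, E, lam, hxV, hVU, P, hT⟩ := h1 U f ν S c H x0 hx0 hne'
  have hcont : ContinuousAt (fderiv ℝ (fun x => Matrix.trace (S x * S x * S x))) x0 :=
    (((smT H).continuousOn_fderiv_of_isOpen hU (by simp)).continuousAt (hU.mem_nhds hx0))
  have hev : ∀ᶠ y in 𝓝 x0, fderiv ℝ (fun x => Matrix.trace (S x * S x * S x)) y ≠ 0 :=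
    hcont.eventually_ne hne'
  have hzero : ∀ᶠ y in 𝓝 x0, lam 1 y = 0 := by
    filter_upwards [hev, P.isOpen.mem_nhds hxV] with y hy hyV
    by_contra hl
    rcases lt_or_gt_of_ne hl with hl | hl
    · exact hy (cubes_vanish P hyV (vanish_neg h2 h3 hA P hyV hl) hT)
    · exact hy (cubes_vanish P hyV (vanish_pos h2 h3 hA P hyV hl) hT)
  have hfd : fderiv ℝ (lam 1) x0 = 0 := by
    have : HasFDerivAt (lam 1) (0 : E3 →L[ℝ] ℝ) x0 :=
      (hasFDerivAt_const (0 : ℝ) x0).congr_of_eventuallyEq hzero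
    exact this.fderiv
  exact hne' (cubes_vanish P hxV hfd hT)

end Y463.BR
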